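import Mathlib

open Finset Matrix

namespace Pool.Agent.H.MP_b296a0_co

variable {V : Type} [Fintype V] [DecidableEq V]

theorem abs_bd {I : Type} [Fintype I] (F : Matrix V I ℝ) (H : Matrix I V ℝ) {c : ℝ} (hc : c ≠ 0)
    (h : ∀ x y, (F * H) x y * (F * H) x y - (F * H) x y = if x = y then c else 0) :
    Fintype.card V ≤ Fintype.card I * (Fintype.card I + 1) := by
  let F' : Matrix V (I × Option I) ℝ := .of fun x k => F x k.1 * k.2.elim (-1) (F x)
  let H' : Matrix (I × Option I) V ℝ := .of fun k y => H k.1 y * k.2.elim 1 fun j => H j y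
  have e : F' * H' = c • (1 : Matrix V V ℝ) := by
    ext x y
    rw [Matrix.smul_apply, one_apply, smul_eq_mul, mul_ite, mul_one, mul_zero, ← h]
    simp only [mul_apply, F', H', of_apply, Fintype.sum_prod_type, Fintype.sum_option,
      Option.elim, sum_add_distrib, sum_mul_sum]
    rw [sub_eq_neg_add, ← sum_neg_distrib]
    congr 1
    · exact sum_congr rfl fun _ _ => by ring
    · exact sum_congr rfl fun _ _ => sum_congr rfl fun _ _ => by ring
  have u : IsUnit (c • (1 : Matrix V V ℝ)) := by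
    rw [isUnit_iff_isUnit_det]
    simp [hc]
  rw [← rank_of_isUnit _ u, ← e]
  simpa using (rank_mul_le_left F' H').trans (rank_le_card_width F')

variable (G : SimpleGraph V) [DecidableRel G.Adj]

theorem pf (hc : G.Connected) {t : ℝ} (h : (t • (1 : Matrix V V ℝ) - G.adjMatrix ℝ).PosSemidef)
    {v : V → ℝ} (hv : G.adjMatrix ℝ *ᵥ v = t • v) :
    G.adjMatrix ℝ *ᵥ |v| = t • |v| ∧ ∀ x, v x = 0 → v = 0 := by
  have a : G.adjMatrix ℝ *ᵥ |v| = t • |v| := by
    have := (h.dotProduct_mulVec_zero_iff |v|).1 (le_antisymm ?_ (h.dotProduct_mulVec_nonneg _))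
    · rw [sub_mulVec, smul_mulVec, one_mulVec, sub_eq_zero] at this
      exact this.symm
    rw [sub_mulVec, smul_mulVec, one_mulVec, star_trivial, dotProduct_sub, sub_nonpos]
    have e : |v| ⬝ᵥ t • |v| = v ⬝ᵥ G.adjMatrix ℝ *ᵥ v := by
      rw [hv]
      simp [dotProduct, mul_left_comm]
    rw [e]
    refine sum_le_sum fun x _ => (le_abs_self _).trans ?_
    rw [abs_mul]
    refine mul_le_mul_of_nonneg_left ((abs_sum_le_sum_abs _ _).trans_eq ?_) (abs_nonneg _)
    refine sum_congr rfl fun y _ => ?_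
    by_cases c : G.Adj x y <;> simp [c]
  refine ⟨a, fun x hx => funext fun y => ?_⟩
  obtain ⟨w⟩ := hc x y
  induction w with
  | nil => exact hx
  | @cons x z _ c _ ih =>
    refine ih (abs_eq_zero.1 ?_)
    have := congrFun a x
    simp only [SimpleGraph.adjMatrix_mulVec_apply, Pi.smul_apply, Pi.abs_apply, hx, abs_zero,
      smul_zero] at this
    exact (sum_eq_zero_iff_of_nonneg fun _ _ => abs_nonneg _).1 this z (by simpa using c)

theorem spec (hc : G.Connected) (h3 : (spectrum ℝ (G.adjMatrix ℝ)).ncard = 3) :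
    ∃ t r s : ℝ, ∃ α : V → ℝ, -s ∈ spectrum ℝ (G.adjMatrix ℝ) ∧ -s < r ∧ r < t ∧ (∀ x, 0 < α x) ∧
      G.adjMatrix ℝ *ᵥ α = t • α ∧ G.adjMatrix ℝ * G.adjMatrix ℝ =
        (r - s) • G.adjMatrix ℝ + (r * s) • (1 : Matrix V V ℝ) + vecMulVec α α ∧
      (G.adjMatrix ℝ + s • (1 : Matrix V V ℝ)).PosSemidef ∧
      (1 < s → (r + s) ^ 2 ≤ 2 * Fintype.card V * s ^ 2) := by
  set A := G.adjMatrix ℝ with hA0
  have hA : A.IsHermitian := G.isSymm_adjMatrix
  obtain ⟨t, r, s, h1, h2, hs⟩ : ∃ t r s : ℝ, -s < r ∧ r < t ∧ spectrum ℝ A = {t, r, -s} := by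
    obtain ⟨x, y, z, a, b, c, e⟩ := Set.ncard_eq_three.1 h3
    rcases lt_or_gt_of_ne a with a | a <;> rcases lt_or_gt_of_ne b with b | b <;>
      rcases lt_or_gt_of_ne c with c | c
    · exact ⟨z, y, -x, by linarith, c, by rw [e]; ext; simp; tauto⟩
    · exact ⟨y, z, -x, by linarith, c, by rw [e]; ext; simp; tauto⟩
    · linarith
    · exact ⟨y, x, -z, by linarith, a, by rw [e]; ext; simp; tauto⟩
    · exact ⟨z, x, -y, by linarith, b, by rw [e]; ext; simp; tauto⟩
    · linarith
    · exact ⟨x, z, -y, by linarith, b, by rw [e]; ext; simp; tauto⟩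
    · exact ⟨x, y, -z, by linarith, a, by rw [e]; ext; simp⟩
  set μ := hA.eigenvalues
  have hμ : ∀ i, μ i = t ∨ μ i = r ∨ μ i = -s := fun i => by
    simpa [hs] using hA.eigenvalues_mem_spectrum_real i
  set U : Matrix V V ℝ := hA.eigenvectorUnitary.1
  have u1 : Uᴴ * U = 1 := hA.eigenvectorUnitary.2.1
  have u2 : U * Uᴴ = 1 := hA.eigenvectorUnitary.2.2
  have e : ∀ a b : ℝ, a • A + b • (1 : Matrix V V ℝ) =
      U * diagonal (fun i => a * μ i + b) * Uᴴ := fun a b => by
    have : A = U * diagonal μ * Uᴴ := hA.spectral_theorem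
    rw [this, ← u2, ← Matrix.smul_mul, ← Matrix.smul_mul a U, ← Matrix.smul_mul b U,
      ← Matrix.add_mul]
    congr 1
    ext i j
    simp [mul_diagonal]
    ring
  have m : ∀ f g : V → ℝ, U * diagonal f * Uᴴ * (U * diagonal g * Uᴴ) =
      U * diagonal (fun i => f i * g i) * Uᴴ := fun f g => by
    rw [← diagonal_mul_diagonal]
    simp only [Matrix.mul_assoc]
    rw [← Matrix.mul_assoc Uᴴ, u1, Matrix.one_mul]
  have ps : ∀ a b : ℝ, (∀ i, 0 ≤ a * μ i + b) → (a • A + b • (1 : Matrix V V ℝ)).PosSemidef :=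
    fun a b h => by
      rw [e]
      exact (PosSemidef.diagonal h).mul_mul_conjTranspose_same U
  have p1 : (t • (1 : Matrix V V ℝ) - A).PosSemidef := by
    convert ps (-1) t fun i => by rcases hμ i with h | h | h <;> linarith using 1
    module
  have p2 : (A + s • (1 : Matrix V V ℝ)).PosSemidef := by
    simpa using ps 1 s fun i => by rcases hμ i with h | h | h <;> linarith
  set M := ((1 : ℝ) • A + (-r) • (1 : Matrix V V ℝ)) * ((1 : ℝ) • A + s • (1 : Matrix V V ℝ))
    with hM
  have hM' : M = A * A - (r - s) • A - (r * s) • (1 : Matrix V V ℝ) := by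
    simp only [hM, Matrix.add_mul, Matrix.mul_add, Matrix.smul_mul, Matrix.mul_smul,
      Matrix.one_mul, Matrix.mul_one]
    module
  have sy : ∀ x y, M x y = M y x := fun x y => by
    have : (A * A) x y = (A * A) y x := by
      simp only [mul_apply, hA0, SimpleGraph.adjMatrix_apply, G.adj_comm]
      exact sum_congr rfl fun _ _ => mul_comm _ _
    simp only [hM', Matrix.sub_apply, Matrix.smul_apply, this]
    simp [hA0, G.adj_comm, one_apply, eq_comm]
  have k : A * M = t • M := by
    have : ((1 : ℝ) • A + (-t) • (1 : Matrix V V ℝ)) * M = 0 := by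
      have : (fun i => (1 * μ i + -t) * ((1 * μ i + -r) * (1 * μ i + s))) = fun _ => 0 :=
        funext fun i => by rcases hμ i with h | h | h <;> simp [h]
      rw [hM, e, e, e, m, m, this]
      simp
    rw [Matrix.add_mul, Matrix.smul_mul, Matrix.smul_mul, Matrix.one_mul, one_smul] at this
    rw [eq_neg_of_add_eq_zero_left this, neg_smul, neg_neg]
  obtain ⟨i, hi⟩ : t ∈ Set.range μ := by
    rw [← hA.spectrum_real_eq_range_eigenvalues, hs]
    simp
  have ev := hA.mulVec_eigenvectorBasis i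
  rw [show hA.eigenvalues i = t from hi] at ev
  obtain ⟨b1, b2⟩ := pf G hc p1 ev
  have b3 : ∀ x, 0 < |⇑(hA.eigenvectorBasis i)| x := fun x => abs_pos.2 fun c =>
    hA.eigenvectorBasis.orthonormal.ne_zero i (by ext y; exact congrFun (b2 x c) y)
  generalize |⇑(hA.eigenvectorBasis i)| = β at b1 b3
  rw [← hA0] at b1
  obtain ⟨o⟩ := hc.nonempty
  have col : ∀ x y, M x y = M o y / β o * β x := fun x y => by
    have := (pf G hc p1 (v := (fun x => M x y) - (M o y / β o) • β) (by
      rw [mulVec_sub, mulVec_smul, b1, smul_sub, smul_comm]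
      congr 1
      funext z
      exact congrFun (congrFun k z) y)).2 o (by simp [(b3 o).ne'])
    exact sub_eq_zero.1 (congrFun this x)
  set κ := M o o / β o / β o
  have mx : ∀ x y, M x y = κ * (β x * β y) := fun x y => by
    rw [col, sy, col]
    ring
  have kp : 0 < κ := by
    have : M *ᵥ β = ((t - r) * (t + s)) • β := by
      simp only [hM', sub_mulVec, ← mulVec_mulVec, smul_mulVec, b1, mulVec_smul, one_mulVec]
      module
    have := congrFun this o
    simp only [mulVec, dotProduct, mx, mul_assoc, ← mul_sum, Pi.smul_apply, smul_eq_mul] at this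
    have h4 : 0 < (t - r) * ((t + s) * β o) :=
      mul_pos (by linarith) (mul_pos (by linarith) (b3 o))
    exact pos_of_mul_pos_left (this ▸ h4) (mul_nonneg (b3 o).le
      (sum_nonneg fun _ _ => mul_self_nonneg _))
  refine ⟨t, r, s, √κ • β, by simp [hs], h1, h2, fun x => mul_pos (Real.sqrt_pos.2 kp) (b3 x),
    by rw [mulVec_smul, b1, smul_comm], ?_, p2, fun s1 => ?_⟩
  · rw [← sub_eq_iff_eq_add', ← sub_sub, ← hM']
    ext x y
    rw [mx, vecMulVec_apply, Pi.smul_apply, Pi.smul_apply, smul_eq_mul, smul_eq_mul,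
      mul_mul_mul_comm, Real.mul_self_sqrt kp.le]
  have eB := e 1 s
  rw [one_smul] at eB
  have tr : ∑ i, (1 * μ i + s) = Fintype.card V * s := by
    have := congrArg trace eB
    rw [trace_mul_cycle, u1, Matrix.one_mul, trace_diagonal] at this
    rw [← this]
    simp [hA0, mul_comm]
  let I := {i // μ i ≠ -s}
  have fac : (Matrix.of fun x (i : I) => U x i * (1 * μ i + s)) * (Matrix.of fun (i : I) y =>
      Uᴴ i y) = A + s • (1 : Matrix V V ℝ) := by
    ext x y
    rw [eB, mul_apply, mul_apply]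
    simp only [of_apply, mul_diagonal]
    rw [← sum_subtype (univ.filter (μ · ≠ -s)) (by simp)
      fun i => U x i * (1 * μ i + s) * Uᴴ i y, sum_filter]
    refine sum_congr rfl fun i _ => ?_
    split_ifs with c
    · rfl
    · simp [not_not.1 c]
  have ab := abs_bd _ _ (c := s * s - s) (by nlinarith) fun x y => by
    rw [fac]
    by_cases c : x = y
    · simp [c, hA0]
    · by_cases d : G.Adj x y <;> simp [c, d, hA0]
  have r1 : Fintype.card I * (r + s) ≤ Fintype.card V * s := by
    rw [← tr, Fintype.card_subtype, ← nsmul_eq_mul, ← sum_const, sum_filter]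
    refine sum_le_sum fun i _ => ?_
    rcases hμ i with h | h | h <;> split_ifs <;> first | linarith | contradiction
  have r2 : (Fintype.card V : ℝ) ≤ 2 * Fintype.card I ^ 2 := by
    have : Fintype.card I ≤ Fintype.card I ^ 2 := Nat.le_self_pow two_ne_zero _
    exact_mod_cast (by nlinarith : Fintype.card V ≤ 2 * Fintype.card I ^ 2)
  have r3 : (0 : ℝ) < Fintype.card V := by exact_mod_cast Fintype.card_pos_iff.2 ⟨o⟩
  have r4 := pow_le_pow_left₀ (mul_nonneg (Nat.cast_nonneg _) (by linarith)) r1 2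
  refine le_of_mul_le_mul_left ?_ r3
  nlinarith [mul_le_mul_of_nonneg_right r2 (sq_nonneg (r + s))]

end Pool.Agent.H.MP_b296a0_co
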