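import Mathlib

namespace Pool.Agent.H.MP_b296a0_co

theorem numA {p q r s t n : ℝ} (hq : 0 < q) (hp : q < p) (hs : 4 / 3 ≤ s) (h1 : -s < r)
    (h2 : r < t) (hP : p * q = s * (r + 1)) (hc : r - s + p * q + 1 ≤ q ^ 2 + r * s)
    (hn : n * q ^ 2 ≤ (t - r) * (t + s)) (ht : t ≤ p ^ 2 + r * s)
    (ha : (r + s) ^ 2 ≤ 2 * n * s ^ 2) : n ≤ (2000 * s ^ 3) ^ 7 := by
  obtain ⟨u, rfl⟩ : ∃ u, r = u - 1 := ⟨r + 1, by ring⟩
  rw [sub_add_cancel] at hP
  have s0 : 0 < s := by linarith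
  have u0 : 0 < u := pos_of_mul_pos_right (hP ▸ mul_pos (hq.trans hp) hq) s0.le
  have n0 : 0 ≤ n := by
    by_contra! c
    nlinarith [mul_pos (neg_pos.2 c) (pow_pos s0 2), sq_nonneg (u - 1 + s)]
  have a1 : u ≤ q ^ 2 := by nlinarith
  have a2 : p ^ 2 ≤ s ^ 2 * u := by
    refine le_of_mul_le_mul_right ?_ u0
    have : p ^ 2 * q ^ 2 = s ^ 2 * u * u := by rw [← mul_pow, hP]; ring
    nlinarith [mul_le_mul_of_nonneg_left a1 (sq_nonneg p)]
  have a3 : t + s ≤ 2 * s ^ 2 * u := by nlinarith [mul_pos s0 u0]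
  have a4 : n ≤ 4 * s ^ 4 * u := by
    refine le_of_mul_le_mul_right ?_ u0
    have := mul_le_mul (show t - (u - 1) ≤ 2 * s ^ 2 * u by linarith) a3 (by linarith)
      (by positivity)
    nlinarith [mul_le_mul_of_nonneg_left a1 n0]
  have a5 : u ≤ 8 * s ^ 6 := by
    refine le_of_mul_le_mul_right ?_ u0
    nlinarith [mul_le_mul_of_nonneg_right a4 (sq_nonneg s)]
  have a6 : s ^ 10 ≤ s ^ 21 := pow_le_pow_right₀ (by linarith) (by norm_num)
  nlinarith [mul_le_mul_of_nonneg_left a5 (pow_pos s0 4).le, pow_pos s0 21]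

theorem numB {p q r s t g g' n n1 n2 : ℝ} (hq : 0 < q) (hp : q < p) (hs : 4 / 3 ≤ s)
    (hP : p * q = r * (s - 1)) (hg : g + g' = p + q) (ht' : t - r = p * g + q * g')
    (e1 : p * n1 = g * (t + s)) (e2 : q * n2 = g' * (t + s)) (k1 : r + g * p ≤ n1)
    (k2 : 1 ≤ g * q) (k3 : 1 ≤ g' * p)
    (lc : (r + g' * q) * (s - 1) * (g * q - q ^ 2) ≤ s * (g * q) * (q ^ 2 + s))
    (cl : q ^ 2 < 1 → n2 ≤ 1 + (q ^ 2 + r * s)) (k4 : 1 ≤ q ^ 2 + r * s)
    (hn : n * q ^ 2 ≤ (t - r) * (t + s)) (ht : t ≤ p ^ 2 + r * s)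
    (ha : (r + s) ^ 2 ≤ 2 * n * s ^ 2) : n ≤ (2000 * s ^ 3) ^ 7 := by
  have p0 := hq.trans hp
  have s0 : 0 < s := by linarith
  have P0 := mul_pos p0 hq
  have r0 : 0 < r := pos_of_mul_pos_left (hP ▸ P0) (by linarith)
  have g0 : 0 < g := pos_of_mul_pos_left (by linarith) hq.le
  have g1 : 0 < g' := pos_of_mul_pos_left (by linarith) p0.le
  have n0 : 0 ≤ n := by
    by_contra! c
    nlinarith [mul_pos (neg_pos.2 c) (pow_pos s0 2), sq_nonneg (r + s)]
  have r3 : r ≤ 3 * (p * q) := by linarith [mul_le_mul_of_nonneg_left hs r0.le]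
  have aP : q ^ 2 ≤ p * q := by linarith [mul_le_mul_of_nonneg_left hp.le hq.le]
  have T : p ^ 2 ≤ t + s := by
    refine le_of_mul_le_mul_left ?_ g0
    linarith [mul_le_mul_of_nonneg_left k1 p0.le, mul_pos p0 r0]
  have a1 : 1 ≤ 10 * q ^ 2 := by
    by_contra! c
    have := mul_le_mul_of_nonneg_left (show n2 ≤ 10 * (p * q) by linarith [cl (by linarith)]) hq.le
    linarith [mul_le_mul_of_nonneg_left T g1.le, mul_le_mul_of_nonneg_left k3 p0.le,
      mul_lt_mul_of_pos_left c p0]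
  have b1 : r ≤ 100 * (q ^ 2 + s) := by
    by_contra! c
    have c1 : 100 * q ≤ 3 * p := le_of_mul_le_mul_right (by linarith) hq
    have c2 := mul_le_mul_of_nonneg_left c1 p0.le
    have c3 : p ≤ 2 * g :=
      le_of_mul_le_mul_left (by linarith [mul_pos hq g0, congrArg (q * ·) hg]) p0
    have c4 : 2 * q ^ 2 ≤ g * q := by
      linarith [mul_le_mul_of_nonneg_left (show 2 * q ≤ g by linarith) hq.le]
    have c5 : p * q * (g * q - q ^ 2) ≤ (r + g' * q) * (s - 1) * (g * q - q ^ 2) :=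
      mul_le_mul_of_nonneg_right (by linarith [mul_pos (mul_pos g1 hq) (by linarith : 0 < s - 1)])
        (by linarith [sq_nonneg q])
    have c6 := mul_le_mul_of_nonneg_left c.le (by positivity : 0 ≤ s * (g * q))
    have c7 := mul_le_mul_of_nonneg_left (show r * s ≤ 4 * (p * q) by linarith)
      (by positivity : 0 ≤ g * q)
    linarith [mul_le_mul_of_nonneg_left c4 P0.le, mul_pos P0 (mul_pos g0 hq)]
  have b2 : r ≤ 1100 * s * q ^ 2 := by
    linarith [mul_le_mul_of_nonneg_left a1 s0.le, mul_le_mul_of_nonneg_left hs (sq_nonneg q),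
      sq_nonneg q]
  have b3 : p ^ 2 ≤ 1100 * s ^ 3 * r := by
    refine le_of_mul_le_mul_right ?_ r0
    have : p ^ 2 * q ^ 2 ≤ (r * s) ^ 2 := by
      rw [← mul_pow]
      exact pow_le_pow_left₀ P0.le (by linarith) 2
    linarith [mul_le_mul_of_nonneg_left b2 (sq_nonneg p), mul_le_mul_of_nonneg_left this s0.le]
  have s2 : s ≤ s ^ 2 := by linarith [mul_le_mul_of_nonneg_left hs s0.le]
  have s3 : s ^ 2 ≤ s ^ 3 := by linarith [mul_le_mul_of_nonneg_left s2 s0.le]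
  obtain ⟨C, hC⟩ : ∃ C, C = 2000 * s ^ 3 := ⟨_, rfl⟩
  have C0 : 0 < C := by rw [hC]; positivity
  have b4 : t + s ≤ C * r := by
    have := mul_le_mul_of_nonneg_left (show 1 ≤ 2 * (r * s) by linarith) s0.le
    rw [hC]
    linarith [mul_le_mul_of_nonneg_left s2 r0.le, mul_le_mul_of_nonneg_left s3 r0.le, mul_pos r0 s0]
  have b5 : n ≤ C ^ 3 * r := by
    refine le_of_mul_le_mul_right ?_ r0
    have h := mul_le_mul (show t - r ≤ C * r by linarith) b4 (by linarith [sq_nonneg p]) (by positivity)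
    have h' : r ≤ C * q ^ 2 := b2.trans (mul_le_mul_of_nonneg_right (by linarith) (sq_nonneg q))
    linarith [mul_le_mul_of_nonneg_left h' n0, mul_le_mul_of_nonneg_left (hn.trans h) C0.le]
  have b6 : r ≤ C ^ 4 := by
    refine le_of_mul_le_mul_right ?_ r0
    linarith [mul_le_mul_of_nonneg_left (show 2 * s ^ 2 ≤ C by linarith) n0,
      mul_le_mul_of_nonneg_left b5 C0.le, mul_pos r0 s0, sq_nonneg s]
  rw [← hC]
  linarith [mul_le_mul_of_nonneg_left b6 (pow_pos C0 3).le]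

end Pool.Agent.H.MP_b296a0_co
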