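import Pool.Agent.H.MP_b296a0_co.A
import Pool.Agent.H.MP_b296a0_co.B

open Finset Matrix

namespace Pool.Agent.H.MP_b296a0_co

variable {V : Type} [Fintype V] [DecidableEq V] (G : SimpleGraph V) [DecidableRel G.Adj]

theorem s43 {s : ℝ} (h : (G.adjMatrix ℝ + s • (1 : Matrix V V ℝ)).PosSemidef) {x y : V}
    (a : G.Adj x y) (d : G.degree y < G.degree x) : 4 / 3 ≤ s := by
  obtain ⟨z, h1, h2, h3⟩ : ∃ z, G.Adj x z ∧ z ≠ y ∧ ¬G.Adj y z := by
    by_contra! c
    have : (G.neighborFinset x).erase y ⊆ (G.neighborFinset y).erase x := fun z hz => by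
      simp only [mem_erase, SimpleGraph.mem_neighborFinset] at hz ⊢
      exact ⟨hz.2.ne', c z hz.2 hz.1⟩
    have := card_le_card this
    rw [card_erase_of_mem (by simpa), card_erase_of_mem (by simpa using a.symm),
      G.card_neighborFinset_eq_degree, G.card_neighborFinset_eq_degree] at this
    have := a.degree_pos_right
    omega
  have := (h.submatrix ![x, y, z]).dotProduct_mulVec_nonneg ![-1, 1, 1]
  simp [dotProduct, mulVec, Fin.sum_univ_three, one_apply, a, a.symm, h1, h1.symm, h3, mt G.adj_symm h3,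
    a.ne, a.ne', h1.ne, h1.ne', h2, h2.symm] at this
  linarith

omit [DecidableEq V] in
theorem two (hc : G.Connected) (h2 : (Set.range fun v => G.degree v).ncard = 2) {α : V → ℝ} {c : ℝ}
    (h0 : ∀ x, 0 < α x) (hd : ∀ x, (G.degree x : ℝ) = α x ^ 2 + c) :
    ∃ x y, G.Adj x y ∧ α y < α x ∧ ∀ z, α z = α x ∨ α z = α y := by
  obtain ⟨x, y, h, k⟩ : ∃ x y, α y < α x ∧ ∀ z, α z = α x ∨ α z = α y := by
    obtain ⟨a, b, h, e⟩ := Set.ncard_eq_two.1 h2
    obtain ⟨x, rfl⟩ : a ∈ Set.range fun v => G.degree v := by simp [e]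
    obtain ⟨y, rfl⟩ : b ∈ Set.range fun v => G.degree v := by simp [e]
    have i : ∀ u v, G.degree u = G.degree v → α u = α v := fun u v h =>
      (pow_left_inj₀ (h0 u).le (h0 v).le two_ne_zero).1 (by linarith [hd u, hd v, h ▸ hd u])
    have k : ∀ z, α z = α x ∨ α z = α y := fun z =>
      Or.imp (i _ _) (i _ _) (e.subset (Set.mem_range_self z))
    rcases lt_trichotomy (α x) (α y) with l | l | l
    · exact ⟨y, x, l, fun z => (k z).symm⟩
    · exact absurd (Nat.cast_injective (R := ℝ) (by simp only [hd, l])) h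
    · exact ⟨x, y, l, k⟩
  obtain ⟨w⟩ := hc x y
  induction w with
  | nil => exact absurd h (lt_irrefl _)
  | @cons x z _ a _ ih =>
    rcases k z with e | e
    · exact ih (e ▸ h) (e ▸ k)
    · exact ⟨x, z, a, e ▸ h, e ▸ k⟩

theorem bound (hc : G.Connected) (h2 : (Set.range fun v => G.degree v).ncard = 2)
    (h3 : (spectrum ℝ (G.adjMatrix ℝ)).ncard = 3) {l : ℝ}
    (hl : ∀ μ ∈ spectrum ℝ (G.adjMatrix ℝ), -l ≤ μ) : (Fintype.card V : ℝ) ≤ (2000 * l ^ 3) ^ 7 := by
  obtain ⟨t, r, s, α, hs, h1, h1', h0, ha, hA, hB, ab⟩ := spec G hc h3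
  have nu : ∀ x y, (G.adjMatrix ℝ * G.adjMatrix ℝ) x y =
      (r - s) * G.adjMatrix ℝ x y + (if x = y then r * s else 0) + α x * α y := fun x y => by
    rw [hA]
    simp [one_apply, vecMulVec_apply]
  have hd : ∀ x, (G.degree x : ℝ) = α x ^ 2 + r * s := fun x => by
    rw [← G.adjMatrix_mul_self_apply_self, nu]
    simp [sq, add_comm]
  obtain ⟨x, y, a, pq, k⟩ := two G hc h2 h0 hd
  have s4 := s43 G hB a (by
    have := pow_lt_pow_left₀ pq (h0 y).le two_ne_zero
    exact_mod_cast (by linarith [hd x, hd y] : (G.degree y : ℝ) < G.degree x))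
  refine le_trans ?_ (pow_le_pow_left₀ (by positivity) (mul_le_mul_of_nonneg_left
    (pow_le_pow_left₀ (by linarith) (show s ≤ l by linarith [hl _ hs]) 3) (by norm_num)) 7)
  replace ab := ab (by linarith)
  set A := G.adjMatrix ℝ with hA0
  have z1 : ∀ u v, A u v = 0 ∨ A u v = 1 := fun u v => by
    by_cases c : G.Adj u v <;> simp [hA0, c]
  have z0 : ∀ u v, 0 ≤ A u v := fun u v => by rcases z1 u v with c | c <;> simp [c]
  have sy : ∀ u v, A u v = A v u := fun u v => by simp [hA0, G.adj_comm]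
  have a1 : A x y = 1 := by simp [hA0, a]
  have d0 : ∀ u, A u u = 0 := fun u => by simp [hA0]
  have dg : ∀ u, ∑ v, A u v = α u ^ 2 + r * s := fun u => by
    rw [← hd]
    simp [hA0, G.degree_eq_sum_if_adj]
  have H : ∀ v, A *ᵥ (A *ᵥ v) = (r - s) • A *ᵥ v + (r * s) • v + (α ⬝ᵥ v) • α := fun v => by
    rw [mulVec_mulVec, hA]
    simp [add_mulVec, smul_mulVec, vecMulVec_mulVec]
  set p := α x
  set q := α y
  have q0 : 0 < q := h0 y
  have e1 : A *ᵥ 1 = (p + q) • α + (r * s - p * q) • (1 : V → ℝ) := funext fun u => by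
    simp only [mulVec, dotProduct, Pi.one_apply, mul_one, dg, Pi.add_apply, Pi.smul_apply,
      smul_eq_mul]
    rcases k u with c | c <;> rw [c] <;> ring
  have hn : Fintype.card V * q ^ 2 ≤ (t - r) * (t + s) := by
    have := congrFun (H α) y
    simp only [ha, mulVec_smul, Pi.add_apply, Pi.smul_apply, smul_eq_mul] at this
    have e : α ⬝ᵥ α = (t - r) * (t + s) := mul_right_cancel₀ q0.ne' (by linarith)
    rw [← e, ← card_univ, ← nsmul_eq_mul, ← sum_const]
    exact sum_le_sum fun u _ => by rcases k u with c | c <;> rw [c] <;> nlinarith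
  have ht : t ≤ p ^ 2 + r * s := by
    refine le_of_mul_le_mul_right ?_ (h0 x)
    rw [← dg, sum_mul, ← smul_eq_mul, ← Pi.smul_apply, ← ha]
    exact sum_le_sum fun u _ => mul_le_mul_of_nonneg_left
      (by rcases k u with c | c <;> linarith) (z0 x u)
  have th : (r * s - p * q + s) * (r * s - p * q - r) = 0 := by
    have h := H 1
    simp only [e1, mulVec_add, mulVec_smul, ha] at h
    have b := congrFun h x
    have c := congrFun h y
    simp only [Pi.add_apply, Pi.smul_apply, smul_eq_mul, Pi.one_apply] at b c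
    exact mul_right_cancel₀ (sub_pos.2 pq).ne' (by linear_combination p * c - q * b)
  rcases mul_eq_zero.1 th with th | th
  · refine numA q0 pq s4 h1 h1' (by linarith) ?_ hn ht ab
    have := nu x y
    rw [a1, if_neg a.ne, mul_apply] at this
    have e : ∑ u, (A x u * A u y + if u = x then 1 else 0) ≤ ∑ u, A y u :=
      sum_le_sum fun u _ => by
        split_ifs with c
        · simp [c, d0, sy y x, a1]
        · rcases z1 x u with b | b <;> simp [b, sy y u, z0]
    rw [sum_add_distrib, sum_ite_eq', if_pos (mem_univ _), dg] at e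
    linarith
  set i : V → ℝ := fun u => if α u = p then 1 else 0 with hi
  set j : V → ℝ := fun u => if α u = p then 0 else 1 with hj
  have ij : ∀ u, (α u = p ∧ i u = 1 ∧ j u = 0) ∨ (α u = q ∧ i u = 0 ∧ j u = 1) := fun u => by
    rcases k u with c | c <;> simp [hi, hj, c, pq.ne]
  have ix : i x = 1 := if_pos rfl
  have jy : j y = 1 := if_neg pq.ne
  clear_value i j
  have i0 : ∀ u, 0 ≤ i u := fun u => by rcases ij u with ⟨-, c, -⟩ | ⟨-, c, -⟩ <;> simp [c]
  have j0 : ∀ u, 0 ≤ j u := fun u => by rcases ij u with ⟨-, -, c⟩ | ⟨-, -, c⟩ <;> simp [c]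
  obtain ⟨g, hg⟩ : ∃ g, (p - q) * g = t - r - q * (p + q) :=
    ⟨_, mul_div_cancel₀ _ (sub_pos.2 pq).ne'⟩
  have ei : A *ᵥ i = r • i + g • α := by
    have : (p - q) • i = α - q • 1 := funext fun u => by
      rcases ij u with ⟨b, c, -⟩ | ⟨b, c, -⟩ <;> simp [b, c]
    refine smul_right_injective _ (sub_pos.2 pq).ne' ?_
    beta_reduce
    rw [← mulVec_smul, smul_add, smul_comm _ r, this, mulVec_sub, mulVec_smul, ha, e1,
      smul_smul _ g, hg, show r * s - p * q = r by linarith]
    module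
  have ej : A *ᵥ j = r • j + (p + q - g) • α := by
    have : j = 1 - i := funext fun u => by
      rcases ij u with ⟨-, b, c⟩ | ⟨-, b, c⟩ <;> simp [b, c]
    rw [this, mulVec_sub, ei, e1, show r * s - p * q = r by linarith]
    module
  have ec : ∀ (v : V → ℝ) c, A *ᵥ v = r • v + c • α → α ⬝ᵥ v = c * (t + s) := fun v c h => by
    have := congrFun (H v) y
    simp only [h, mulVec_add, mulVec_smul, ha, Pi.add_apply, Pi.smul_apply, smul_eq_mul] at this
    exact mul_right_cancel₀ q0.ne' (by linarith)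
  have le : ∀ u (v : V → ℝ), (∀ w, 0 ≤ v w) → (A *ᵥ v) u ≤ ∑ w, v w := fun u v h =>
    sum_le_sum fun w _ => by rcases z1 u w with c | c <;> simp [c, h]
  have ge : ∀ u w (v : V → ℝ), (∀ w, 0 ≤ v w) → A u w * v w ≤ (A *ᵥ v) u := fun u w v h =>
    single_le_sum (f := fun w => A u w * v w) (fun w _ => mul_nonneg (z0 u w) (h w)) (mem_univ w)
  have iy : (A *ᵥ i) y = g * q := by
    rcases ij y with ⟨b, -⟩ | ⟨-, c, -⟩
    · exact absurd b pq.ne
    · simp [ei, c, q]
  have jy' : (A *ᵥ j) y = r + (p + q - g) * q := by simp [ej, jy, q]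
  refine numB (g := g) (g' := p + q - g) (n1 := ∑ u, i u) (n2 := ∑ u, j u) q0 pq s4 (by linarith)
    (by ring) (by linarith) ?_ ?_ ?_ ?_ ?_ ?_ (fun c => ?_) ?_ hn ht ab
  · rw [← ec i g ei, mul_sum]
    exact sum_congr rfl fun u _ => by rcases ij u with ⟨b, c, -⟩ | ⟨b, c, -⟩ <;> simp [b, c]
  · rw [← ec j _ ej, mul_sum]
    exact sum_congr rfl fun u _ => by rcases ij u with ⟨b, -, c⟩ | ⟨b, -, c⟩ <;> simp [b, c]
  · simpa [ei, ix] using le x i i0
  · simpa [iy, ix, sy y x, a1] using ge y x i i0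
  · have := ge x y j j0
    rcases ij x with ⟨b, -, c⟩ | ⟨b, -, c⟩
    · simpa [ej, jy, a1, c] using this
    · exact absurd b pq.ne'
  · rw [← jy', ← iy]
    have sm : ∀ u v : V → ℝ, u ⬝ᵥ A *ᵥ v = v ⬝ᵥ A *ᵥ u := fun u v => by
      simp only [dotProduct, mulVec, mul_sum]
      rw [sum_comm]
      exact sum_congr rfl fun b _ => sum_congr rfl fun c _ => by rw [sy]; ring
    set m := (A *ᵥ j) y with hm
    set κ := (A *ᵥ i) y with hκ
    set w : V → ℝ := fun z => A y z * j z
    set w' : V → ℝ := fun z => A y z * i z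
    set e : V → ℝ := Pi.single y 1
    have c0 : ∀ z, (A *ᵥ e) z = A y z := fun z => by simp [e, sy]
    have c1 : A *ᵥ e = w + w' := funext fun z => by
      rcases ij z with ⟨-, b, c⟩ | ⟨-, b, c⟩ <;> simp [c0, w, w', b, c]
    have c2 : ∀ (f : V → ℝ) c, (∀ z, f z * α z = c * f z) → (fun z => A y z * f z) ⬝ᵥ A *ᵥ (w + w') =
        (r - s + c * q) * (A *ᵥ f) y := fun f c h => by
      rw [← c1, H, dotProduct_add, dotProduct_add, dotProduct_smul, dotProduct_smul, dotProduct_smul]
      rw [show A *ᵥ e = A y from funext c0]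
      simp only [e, dotProduct_single, d0, add_mul, smul_eq_mul, mul_one, zero_mul, mul_zero,
        add_zero]
      simp only [dotProduct, mulVec, mul_sum]
      congr 1
      · refine sum_congr rfl fun z _ => ?_
        rcases z1 y z with b | b <;> simp [b]
      · exact sum_congr rfl fun z _ => by linear_combination (α y * A y z) * h z
    have c3 := c2 j q fun z => by rcases ij z with ⟨b, -, c⟩ | ⟨b, -, c⟩ <;> simp [b, c]
    have c4 := c2 i p fun z => by rcases ij z with ⟨b, c, -⟩ | ⟨b, c, -⟩ <;> simp [b, c]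
    have w0 : ∀ z, 0 ≤ w' z := fun z => mul_nonneg (z0 _ _) (i0 _)
    have c5 : w' ⬝ᵥ A *ᵥ w' ≤ κ * κ := by
      rw [hκ, mulVec, dotProduct, dotProduct, sum_mul]
      exact sum_le_sum fun z _ => mul_le_mul_of_nonneg_left (le z w' w0) (w0 z)
    have c6 : w ⬝ᵥ w = m := sum_congr rfl fun z _ => by
      rcases ij z with ⟨-, -, c⟩ | ⟨-, -, c⟩ <;> rcases z1 y z with b | b <;> simp [w, b, c]
    have c7 : w ⬝ᵥ A *ᵥ e = m := sum_congr rfl fun z _ => by
      rcases z1 y z with b | b <;> simp [w, b, c0]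
    have c8 := hB.dotProduct_mulVec_nonneg (s • w - m • e)
    simp only [star_trivial, add_mulVec, smul_mulVec, one_mulVec, mulVec_sub, mulVec_smul,
      dotProduct_add, dotProduct_sub, sub_dotProduct, dotProduct_smul, smul_dotProduct, sm e w,
      c6, c7, smul_eq_mul] at c8
    have c9 : e ⬝ᵥ A *ᵥ e = 0 ∧ e ⬝ᵥ e = 1 ∧ w ⬝ᵥ e = 0 ∧ e ⬝ᵥ w = 0 := by simp [e, w, d0]
    simp only [mulVec_add, dotProduct_add, ← hm, ← hκ] at c3 c4
    rw [c9.1, c9.2.1, c9.2.2.1, c9.2.2.2] at c8
    have c10 := sm w w'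
    have c11 : m + κ = q ^ 2 + r * s := by rw [jy', iy]; linarith
    have c12 : m ^ 2 ≤ s * (w ⬝ᵥ A *ᵥ w + s * m) :=
      le_of_mul_le_mul_left (by linarith) (by linarith : 0 < s)
    have c13 : w ⬝ᵥ A *ᵥ w ≤ (r - s + q * q) * m - (r - s + p * q) * κ + κ * κ := by linarith
    have c14 := mul_le_mul_of_nonneg_left c13 (by linarith : 0 ≤ s)
    rw [show p * q = r * s - r by linarith] at c14
    rw [show κ = q ^ 2 + r * s - m by linarith] at c14 ⊢
    linarith
  · rw [← dg, ← (sum_ite_eq' univ y fun _ => (1 : ℝ)).trans (if_pos (mem_univ _)),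
      ← sum_add_distrib]
    refine sum_le_sum fun u _ => ?_
    rcases ij u with ⟨-, -, b⟩ | ⟨b, -, b'⟩
    · rw [b]
      have := z0 y u
      positivity
    split_ifs with e
    · linarith [z0 y u]
    rcases z1 y u with f | f
    · have h := nu y u
      rw [f, if_neg (Ne.symm e), b, mul_apply, mul_zero, zero_add, zero_add] at h
      obtain ⟨w, -, hw⟩ := exists_ne_zero_of_sum_ne_zero (h.trans_ne (mul_pos q0 q0).ne')
      have := single_le_sum (f := fun w => A y w * A w u)
        (fun w _ => mul_nonneg (z0 _ _) (z0 _ _)) (mem_univ w)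
      rw [h, (z1 y w).resolve_left (left_ne_zero_of_mul hw),
        (z1 w u).resolve_left (right_ne_zero_of_mul hw)] at this
      linarith
    · linarith
  · rw [← dg]
    simpa [sy y x, a1] using single_le_sum (fun w _ => z0 y w) (mem_univ x)

end Pool.Agent.H.MP_b296a0_co
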